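import Pool.Agent.H29.LG.Targets

/-!
# Board `lgx_modules`, row GR1F: rank of the values at the twists, upper bound
-/

set_option autoImplicit false

namespace Pool.Agent.H14.LG

open NumberField Height Finset Polynomial Pool.Agent.H24.RD Pool.Agent.H23.RDD Pool.Agent.H29.RQ
  Pool.Agent.H29.SX Pool.Agent.H29.LG

namespace GR1F

theorem IsPt_nsmul {A R : Type} [AddCommGroup A] [CommRing R] {y : A → R} (hy : IsPt y) (a : A)
    (q : ℕ) : y (q • a) = y a ^ q := by
  induction q with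
  | zero => rw [zero_smul, pow_zero, hy.zero]
  | succ q ih => rw [succ_nsmul, hy.add, ih, pow_succ]

end GR1F

theorem pf_GR1F (h : T_REPQ) : T_GR1F := by
  intro K Ω _ _ _ p i hp ζ hζ m y N hy hN σ ρ hσ hcl
  classical
  obtain ⟨q, hq⟩ : ∃ q : ℕ, q = p ^ i := ⟨_, rfl⟩
  have hq0 : 0 < q := hq ▸ pow_pos hp.pos i
  have hqr : (p : ℝ) ^ i = (q : ℝ) := by rw [hq]; push_cast; rfl
  have hrep : ∀ a : Fin m → ℤ, ∃ b : Fin m → ℤ, (∀ l, (q : ℤ) ∣ a l - b l) ∧
      N b ≤ (q : ℝ) * (m * σ) := by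
    intro a
    obtain ⟨b, hb1, hb2⟩ := h m N hN σ hσ hcl p i hp a
    refine ⟨b, fun l => ?_, ?_⟩
    · rw [hq]
      exact hb1 l
    · rw [← hqr]
      exact hb2
  rw [hqr]
  revert hζ
  rw [← hq]
  intro hζ
  have : NeZero q := ⟨hq0.ne'⟩
  have hq' : (0 : ℝ) < q := by exact_mod_cast hq0
  set V := WW K (fun a => y a ^ q) N (ρ + m * σ) with hV
  have hfin : FiniteDimensional K V := by
    rw [hV]
    unfold WW
    exact FiniteDimensional.span_of_finite K ((hN.fin (ρ + m * σ)).image _)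
  -- representatives
  have hex : ∃ a0 : (Fin m → ZMod q) → (Fin m → ℤ), ∀ n, N (a0 n) ≤ q * (m * σ) ∧
      ∀ l, ((a0 n l : ℤ) : ZMod q) = n l := by
    have h1 : ∀ n : Fin m → ZMod q, ∃ b : Fin m → ℤ, N b ≤ q * (m * σ) ∧
        ∀ l, ((b l : ℤ) : ZMod q) = n l := by
      intro n
      obtain ⟨b, hb1, hb2⟩ := hrep fun l => ((n l).val : ℤ)
      refine ⟨b, hb2, fun l => ?_⟩
      have h2 := hb1 l
      rw [← ZMod.intCast_zmod_eq_zero_iff_dvd, Int.cast_sub, sub_eq_zero, Int.cast_natCast,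
        ZMod.natCast_zmod_val] at h2
      exact h2.symm
    choose a0 ha0 using h1
    exact ⟨a0, ha0⟩
  obtain ⟨a0, ha0⟩ := hex
  let Φ : ((Fin m → ZMod q) → V) →ₗ[K] ((Fin m → Fin q) → Ω) :=
    { toFun := fun w e => ∑ n, algebraMap K Ω (ζ ^ (∑ l, ((e l : ℕ) : ℤ) * a0 n l)) *
        y (a0 n) * (w n : Ω)
      map_add' := by
        intro w w'
        funext e
        simp only [Pi.add_apply, Submodule.coe_add]
        rw [← Finset.sum_add_distrib]
        exact Finset.sum_congr rfl fun n _ => by ring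
      map_smul' := by
        intro c w
        funext e
        simp only [Pi.smul_apply, Submodule.coe_smul, RingHom.id_apply]
        rw [Finset.smul_sum]
        refine Finset.sum_congr rfl fun n _ => ?_
        rw [mul_smul_comm] }
  have hle : Submodule.span K ((fun (a : Fin m → ℤ) (e : Fin m → Fin q) =>
        algebraMap K Ω (ζ ^ (∑ l, ((e l : ℕ) : ℤ) * a l)) * y a) '' {a | N a ≤ q * ρ}) ≤
      LinearMap.range Φ := by
    rw [Submodule.span_le]
    rintro _ ⟨a, ha, rfl⟩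
    have ha' : N a ≤ q * ρ := ha
    let n : Fin m → ZMod q := fun l => ((a l : ℤ) : ZMod q)
    obtain ⟨h1, h2⟩ := ha0 n
    have h3 : ∀ l, ∃ b : ℤ, a l = a0 n l + q * b := by
      intro l
      have h4 : ((a l - a0 n l : ℤ) : ZMod q) = 0 := by
        rw [Int.cast_sub, h2 l, sub_self]
      rw [ZMod.intCast_zmod_eq_zero_iff_dvd] at h4
      obtain ⟨b, hb⟩ := h4
      exact ⟨b, by linarith⟩
    choose b hb using h3
    have hab : a = a0 n + q • b := by
      funext l
      rw [Pi.add_apply, Pi.smul_apply, nsmul_eq_mul, hb l]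
    have hNb : N b ≤ ρ + m * σ := by
      have h5 : N (q • b) ≤ q * ρ + q * (m * σ) := by
        have h6 : q • b = a + -(a0 n) := by rw [hab]; abel
        rw [h6]
        refine le_trans (hN.add _ _) ?_
        rw [hN.neg]
        exact add_le_add ha' h1
      rw [hN.nsm] at h5
      have h7 : (q : ℝ) * N b ≤ q * (ρ + m * σ) := by linarith
      exact le_of_mul_le_mul_left h7 hq'
    have hmem : y b ^ q ∈ V := by
      rw [hV]
      exact Submodule.subset_span ⟨b, hNb, rfl⟩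
    refine ⟨Pi.single n ⟨y b ^ q, hmem⟩, ?_⟩
    funext e
    change ∑ n', algebraMap K Ω (ζ ^ (∑ l, ((e l : ℕ) : ℤ) * a0 n' l)) * y (a0 n') *
      ((Pi.single n (⟨y b ^ q, hmem⟩ : V) : (Fin m → ZMod q) → V) n' : Ω) = _
    rw [Finset.sum_eq_single n]
    · rw [Pi.single_eq_same]
      have e1 : y a = y (a0 n) * y b ^ q := by
        conv_lhs => rw [hab]
        rw [hy.add, GR1F.IsPt_nsmul hy]
      have e2 : ζ ^ (∑ l, ((e l : ℕ) : ℤ) * a l) = ζ ^ (∑ l, ((e l : ℕ) : ℤ) * a0 n l) := by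
        have e3 : ∑ l, ((e l : ℕ) : ℤ) * a l = ∑ l, ((e l : ℕ) : ℤ) * a0 n l +
            (q : ℤ) * ∑ l, ((e l : ℕ) : ℤ) * b l := by
          rw [Finset.mul_sum, ← Finset.sum_add_distrib]
          refine Finset.sum_congr rfl fun l _ => ?_
          rw [hb l]
          ring
        have hz : ζ ≠ 0 := hζ.ne_zero hq0.ne'
        rw [e3, zpow_add₀ hz, zpow_mul, zpow_natCast, hζ.pow_eq_one, one_zpow, mul_one]
      change algebraMap K Ω (ζ ^ (∑ l, ((e l : ℕ) : ℤ) * a0 n l)) * y (a0 n) * (y b ^ q) =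
        algebraMap K Ω (ζ ^ (∑ l, ((e l : ℕ) : ℤ) * a l)) * y a
      rw [e1, e2]
      ring
    · intro n' _ hn'
      rw [Pi.single_eq_of_ne hn']
      simp
    · intro h
      exact absurd (Finset.mem_univ n) h
  refine le_trans (Submodule.finrank_mono hle) ?_
  refine le_trans (LinearMap.finrank_range_le Φ) ?_
  rw [Module.finrank_pi_fintype]
  rw [Finset.sum_const, Finset.card_univ, Fintype.card_fun, ZMod.card, Fintype.card_fin,
    smul_eq_mul]

end Pool.Agent.H14.LG
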