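import Pool.Agent.H29.LG.Targets2

/-!
# Board `lgx_modules`, row NUML: choice of the parameter `j`, with a logarithmic loss
-/

set_option autoImplicit false

namespace Pool.Agent.H14.LG

open NumberField Height Finset Polynomial Pool.Agent.H24.RD Pool.Agent.H23.RDD Pool.Agent.H29.RQ
  Pool.Agent.H29.SX Pool.Agent.H29.LG

namespace NUML

/-- exponential against linear growth -/
theorem exists_j0 (A : ℕ) : ∃ j₀ : ℕ, ∀ j : ℕ, j₀ ≤ j → 8 * A * (j + 1) ≤ 2 ^ j := by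
  refine ⟨2 * (16 * A + 4), fun j hj => ?_⟩
  induction j, hj using Nat.le_induction with
  | base =>
    have h1 : 16 * A + 4 + 1 ≤ 2 ^ (16 * A + 4) := Nat.lt_two_pow_self
    calc 8 * A * (2 * (16 * A + 4) + 1) ≤ (16 * A + 4 + 1) * (16 * A + 4 + 1) := by nlinarith
      _ ≤ 2 ^ (16 * A + 4) * 2 ^ (16 * A + 4) := Nat.mul_le_mul h1 h1
      _ = 2 ^ (2 * (16 * A + 4)) := by rw [two_mul (16 * A + 4), ← pow_add]
  | succ j _ ih =>
    calc 8 * A * (j + 1 + 1) ≤ 8 * A * (j + 1) * 2 := by nlinarith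
      _ ≤ 2 ^ j * 2 := Nat.mul_le_mul_right 2 ih
      _ = 2 ^ (j + 1) := (pow_succ 2 j).symm

end NUML

theorem pf_NUML : T_NUML := by
  intro p hp A
  obtain ⟨j₀, hj₀⟩ := NUML.exists_j0 A
  have hpr : (2 : ℝ) ≤ p := by exact_mod_cast hp
  have hp0 : (0 : ℝ) < p := by linarith
  obtain ⟨B, hB⟩ : ∃ B : ℝ, B = (p : ℝ) ^ j₀ + 20 := ⟨_, rfl⟩
  have hB20 : 20 ≤ B := by
    have : (0 : ℝ) ≤ (p : ℝ) ^ j₀ := by positivity
    linarith
  have hB0 : 0 < B := by linarith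
  have hlp : (0.69 : ℝ) ≤ Real.log p := by
    have h1 := Real.log_two_gt_d9
    have h2 : Real.log 2 ≤ Real.log p := Real.log_le_log (by norm_num) hpr
    linarith
  refine ⟨1 / ((p : ℝ) ^ 2 * B) ^ A, A, by positivity, fun d hd => ?_⟩
  have hd1 : (1 : ℝ) ≤ d := by exact_mod_cast hd
  obtain ⟨L, hL⟩ : ∃ L : ℝ, L = Real.log (3 * d) := ⟨_, rfl⟩
  have hL3 : Real.log 3 + Real.log d = L := by
    rw [hL, Real.log_mul (by norm_num) (by linarith)]
  have hlog3 : (1 : ℝ) < Real.log 3 := by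
    rw [Real.lt_log_iff_exp_lt (by norm_num)]
    have := Real.exp_one_lt_d9
    linarith
  have hld : 0 ≤ Real.log d := Real.log_nonneg hd1
  have hL1 : 1 < L := by linarith
  have hdL : Real.log d ≤ L := by linarith
  have hex : ∃ j : ℕ, B * L ≤ (p : ℝ) ^ j := by
    obtain ⟨n, hn⟩ := pow_unbounded_of_one_lt (B * L) (by linarith : (1 : ℝ) < p)
    exact ⟨n, hn.le⟩
  classical
  obtain ⟨j, hj1, hj2⟩ : ∃ j : ℕ, B * L ≤ (p : ℝ) ^ j ∧ (p : ℝ) ^ j ≤ p * (B * L) := by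
    refine ⟨Nat.find hex, Nat.find_spec hex, ?_⟩
    rcases Nat.eq_zero_or_pos (Nat.find hex) with h0 | h0
    · rw [h0, pow_zero]
      nlinarith [mul_pos hB0 (by linarith : (0 : ℝ) < L)]
    · have h1 := Nat.find_min hex (Nat.sub_lt h0 one_pos)
      rw [not_le] at h1
      have h2 : (p : ℝ) ^ Nat.find hex = p * (p : ℝ) ^ (Nat.find hex - 1) := by
        rw [← pow_succ', Nat.sub_add_cancel h0]
      rw [h2]
      exact mul_le_mul_of_nonneg_left h1.le hp0.le
  have hjj : j₀ ≤ j := by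
    by_contra h
    rw [not_le] at h
    have h1 : (p : ℝ) ^ j ≤ (p : ℝ) ^ j₀ := pow_le_pow_right₀ (by linarith) h.le
    nlinarith
  have hjA : 8 * (A : ℝ) * (j + 1) ≤ (p : ℝ) ^ j := by
    have h1 : ((8 * A * (j + 1) : ℕ) : ℝ) ≤ ((2 ^ j : ℕ) : ℝ) := by exact_mod_cast hj₀ j hjj
    push_cast at h1
    exact h1.trans (pow_le_pow_left₀ (by norm_num) hpr j)
  refine ⟨j, ?_, ?_⟩
  · rw [Real.log_mul (by linarith) (by positivity), Real.log_pow]
    push_cast
    have h1 : 8 * (A : ℝ) * (j + 1) * Real.log p ≤ (p : ℝ) ^ j * Real.log p :=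
      mul_le_mul_of_nonneg_right hjA (by linarith)
    have h2 : B * L * Real.log p ≤ (p : ℝ) ^ j * Real.log p :=
      mul_le_mul_of_nonneg_right hj1 (by linarith)
    have h3 : 20 * L ≤ B * L := mul_le_mul_of_nonneg_right hB20 (by linarith)
    have h4 : 20 * L * Real.log p ≤ B * L * Real.log p :=
      mul_le_mul_of_nonneg_right h3 (by linarith)
    have h5 : 20 * L * 0.69 ≤ 20 * L * Real.log p :=
      mul_le_mul_of_nonneg_left hlp (by linarith)
    have h6 : 1 * Real.log p ≤ L * Real.log p :=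
      mul_le_mul_of_nonneg_right hL1.le (by linarith)
    nlinarith
  · have h1 : (p : ℝ) ^ (A * (j + 1)) ≤ ((p : ℝ) ^ 2 * B) ^ A * L ^ A := by
      rw [mul_comm A, pow_mul, ← mul_pow]
      refine pow_le_pow_left₀ (by positivity) ?_ A
      rw [pow_succ]
      nlinarith
    rw [← hL, div_mul_eq_mul_div, one_mul, div_le_iff₀ (by positivity)]
    linarith

end Pool.Agent.H14.LG
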