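import Pool.Agent.H29.LG.Targets

/-!
# Board `lgx_modules`, row REPQ: small representatives modulo a prime power
-/

set_option autoImplicit false

namespace Pool.Agent.H14.LG

open NumberField Height Finset Polynomial Pool.Agent.H24.RD Pool.Agent.H23.RDD Pool.Agent.H29.RQ
  Pool.Agent.H29.SX Pool.Agent.H29.LG

namespace REPQ

theorem nm_zero {A : Type} [AddCommGroup A] {N : A → ℝ} (hN : IsNm N) : N 0 = 0 := by
  have h := hN.nsm 0 0
  rw [zero_smul, Nat.cast_zero, zero_mul] at h
  exact h

theorem nm_nonneg {A : Type} [AddCommGroup A] {N : A → ℝ} (hN : IsNm N) (a : A) : 0 ≤ N a := by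
  have h := hN.add a (-a)
  rw [add_neg_cancel, nm_zero hN, hN.neg] at h
  linarith

theorem nm_sum {A ι : Type} [AddCommGroup A] {N : A → ℝ} (hN : IsNm N) (s : Finset ι)
    (f : ι → A) : N (∑ j ∈ s, f j) ≤ ∑ j ∈ s, N (f j) := by
  classical
  induction s using Finset.induction_on with
  | empty => rw [Finset.sum_empty, Finset.sum_empty, nm_zero hN]
  | insert a s ha ih =>
    rw [Finset.sum_insert ha, Finset.sum_insert ha]
    exact (hN.add _ _).trans (by linarith)

/-- a set of generators contains `m` elements which generate modulo `p` -/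
theorem exists_gens {m : ℕ} (S : Set (Fin m → ℤ)) (hS : AddSubgroup.closure S = ⊤) (p : ℕ)
    (hp : p.Prime) : ∃ (ι : Type) (_ : Fintype ι) (v : ι → Fin m → ℤ), Fintype.card ι = m ∧
      (∀ j, v j ∈ S) ∧ ∀ a : Fin m → ℤ, ∃ c : ι → ℕ, (∀ j, c j + 1 ≤ p) ∧
        ∀ l, (p : ℤ) ∣ a l - ∑ j, (c j : ℤ) * v j l := by
  classical
  have : Fact p.Prime := ⟨hp⟩
  let red : (Fin m → ℤ) →+ (Fin m → ZMod p) :=
    { toFun := fun a l => ((a l : ℤ) : ZMod p)
      map_zero' := by funext l; simp
      map_add' := by intro a b; funext l; simp }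
  have hspan : Submodule.span (ZMod p) (red '' S) = ⊤ := by
    have h1 : AddSubgroup.closure S ≤
        (Submodule.span (ZMod p) (red '' S)).toAddSubgroup.comap red := by
      rw [AddSubgroup.closure_le]
      intro a ha
      exact Submodule.subset_span ⟨a, ha, rfl⟩
    rw [hS] at h1
    rw [eq_top_iff]
    intro x _
    have h2 : red (fun l => ((x l).val : ℤ)) = x := by
      funext l
      show ((((x l).val : ℤ)) : ZMod p) = x l
      rw [Int.cast_natCast, ZMod.natCast_zmod_val]
    have h3 : red (fun l => ((x l).val : ℤ)) ∈ Submodule.span (ZMod p) (red '' S) :=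
      h1 (AddSubgroup.mem_top _)
    rwa [h2] at h3
  obtain ⟨b, hbs, hb, hli⟩ := exists_linearIndependent (ZMod p) (red '' S)
  rw [hspan] at hb
  have hbf : Finite b := hli.finite
  have : Fintype b := Fintype.ofFinite b
  let B : Module.Basis b (ZMod p) (Fin m → ZMod p) := Module.Basis.mk hli (by
    rw [Subtype.range_coe, hb])
  have hcard : Fintype.card b = m := by
    have h1 := Module.finrank_eq_card_basis B
    rw [Module.finrank_fin_fun] at h1
    exact h1.symm
  have hex : ∀ j : b, ∃ v ∈ S, red v = j.1 := fun j => hbs j.2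
  choose v hv1 hv2 using hex
  refine ⟨b, inferInstance, v, hcard, hv1, fun a => ?_⟩
  refine ⟨fun j => (B.repr (red a) j).val, fun j => ZMod.val_lt _, fun l => ?_⟩
  rw [← ZMod.intCast_zmod_eq_zero_iff_dvd]
  have h1 := congrFun (B.sum_repr (red a)) l
  rw [Finset.sum_apply] at h1
  have h2 : ∀ j : b, (B.repr (red a) j • B j) l =
      B.repr (red a) j * ((v j l : ℤ) : ZMod p) := by
    intro j
    rw [Pi.smul_apply, smul_eq_mul, Module.Basis.mk_apply, ← hv2 j]
    rfl
  rw [Finset.sum_congr rfl fun j _ => h2 j] at h1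
  push_cast
  rw [sub_eq_zero]
  have h3 : (red a) l = ((a l : ℤ) : ZMod p) := rfl
  rw [← h3, ← h1]
  refine Finset.sum_congr rfl fun j _ => ?_
  rw [ZMod.natCast_zmod_val]

end REPQ

theorem pf_REPQ : T_REPQ := by
  intro m N hN σ hσ hcl p i hp
  obtain ⟨ι, _, v, hcard, hv, hc⟩ := REPQ.exists_gens _ hcl p hp
  have hp1 : (1 : ℝ) ≤ p := by exact_mod_cast hp.one_lt.le
  have key : ∀ i : ℕ, ∀ a : Fin m → ℤ, ∃ b : Fin m → ℤ, (∀ l, ((p ^ i : ℕ) : ℤ) ∣ a l - b l) ∧
      N b ≤ ((p : ℝ) ^ i - 1) * (m * σ) := by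
    intro i
    induction i with
    | zero =>
      intro a
      refine ⟨0, fun l => ?_, ?_⟩
      · simp
      · rw [REPQ.nm_zero hN, pow_zero, sub_self, zero_mul]
    | succ i ih =>
      intro a
      obtain ⟨b, hb1, hb2⟩ := ih a
      choose a' ha' using hb1
      obtain ⟨c, hc1, hc2⟩ := hc a'
      refine ⟨b + (p ^ i) • ∑ j, c j • v j, fun l => ?_, ?_⟩
      · obtain ⟨d, hd⟩ := hc2 l
        refine ⟨d, ?_⟩
        have h1 : (b + (p ^ i) • ∑ j, c j • v j) l =
            b l + ((p ^ i : ℕ) : ℤ) * ∑ j, (c j : ℤ) * v j l := by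
          rw [Pi.add_apply, Pi.smul_apply, Finset.sum_apply, nsmul_eq_mul]
          simp only [Pi.smul_apply, nsmul_eq_mul]
        rw [h1]
        have h2 := ha' l
        have h3 : a l - (b l + ((p ^ i : ℕ) : ℤ) * ∑ j, (c j : ℤ) * v j l) =
            ((p ^ i : ℕ) : ℤ) * (a' l - ∑ j, (c j : ℤ) * v j l) := by
          rw [mul_sub, ← h2]
          ring
        rw [h3, hd, pow_succ]
        push_cast
        ring
      · have h1 : N (∑ j, c j • v j) ≤ ((p : ℝ) - 1) * (m * σ) := by
          refine (REPQ.nm_sum hN _ _).trans ?_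
          calc ∑ j, N (c j • v j) ≤ ∑ _j : ι, ((p : ℝ) - 1) * σ := by
                refine Finset.sum_le_sum fun j _ => ?_
                rw [hN.nsm]
                have h2 : (c j : ℝ) ≤ (p : ℝ) - 1 := by
                  have h3 : ((c j + 1 : ℕ) : ℝ) ≤ p := by exact_mod_cast hc1 j
                  push_cast at h3
                  linarith
                exact mul_le_mul h2 (hv j) (REPQ.nm_nonneg hN _) (by linarith)
            _ = ((p : ℝ) - 1) * (m * σ) := by
                rw [Finset.sum_const, Finset.card_univ, hcard, nsmul_eq_mul]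
                ring
        refine (hN.add _ _).trans ?_
        rw [hN.nsm]
        push_cast
        have h4 : (0 : ℝ) ≤ (p : ℝ) ^ i := by positivity
        have h5 := mul_le_mul_of_nonneg_left h1 h4
        rw [pow_succ]
        nlinarith [h5, hb2]
  intro a
  obtain ⟨b, hb1, hb2⟩ := key i a
  refine ⟨b, hb1, hb2.trans ?_⟩
  have h1 : (0 : ℝ) ≤ m * σ := by positivity
  nlinarith

end Pool.Agent.H14.LG
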